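import Pool.Agent.Helper65.EV.St

/-!
# Project EV, module SH: shells of the intensity measure
-/

set_option autoImplicit false

open MeasureTheory ProbabilityTheory Set Filter
open scoped ENNReal Topology
open Pool.Agent.Helper84.Eve
open Pool.Agent.Helper65.EV

namespace Pool.Agent.Helper69.EV

private noncomputable def aa (i : ℕ) : ℝ := Real.exp (-(2 : ℝ) ^ i)

private lemma aa_anti : Antitone aa := by
  intro i j hij
  apply Real.exp_le_exp.2
  have : (2 : ℝ) ^ i ≤ 2 ^ j := pow_le_pow_right₀ (by norm_num) hij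
  linarith

private lemma aa_pos (i : ℕ) : 0 < aa i := Real.exp_pos _

private lemma aa_lim : Tendsto aa atTop (𝓝 0) := by
  have h1 : Tendsto (fun i : ℕ => (2 : ℝ) ^ i) atTop atTop :=
    tendsto_pow_atTop_atTop_of_one_lt (by norm_num)
  exact Real.tendsto_exp_neg_atTop_nhds_zero.comp h1

private lemma union_eq (j : ℕ) :
    (⋃ i, Ioc (aa (j + i + 1)) (aa (j + i))) = Ioc 0 (aa j) := by
  ext x
  simp only [mem_iUnion, mem_Ioc]
  constructor
  · rintro ⟨i, h1, h2⟩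
    exact ⟨(aa_pos _).trans h1, h2.trans (aa_anti (Nat.le_add_right _ _))⟩
  · rintro ⟨h1, h2⟩
    classical
    have hex : ∃ i, aa (j + i) < x := by
      have h3 : Tendsto (fun i => aa (j + i)) atTop (𝓝 0) := by
        have := (tendsto_add_atTop_iff_nat (f := aa) j).2 aa_lim
        simpa [add_comm] using this
      exact ((tendsto_order.1 h3).2 x h1).exists
    have hs := Nat.find_spec hex
    rcases hn : Nat.find hex with _ | k
    · rw [hn] at hs
      exact absurd hs (not_lt.2 (by simpa using h2))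
    · rw [hn] at hs
      refine ⟨k, hs, ?_⟩
      have := Nat.find_min hex (m := k) (by omega)
      exact not_lt.1 this

private lemma disj (j : ℕ) :
    Pairwise (Function.onFun Disjoint fun i => Ioc (aa (j + i + 1)) (aa (j + i))) := by
  have h : Antitone fun i => aa (j + i) := fun i k hik => aa_anti (by omega)
  exact h.pairwise_disjoint_on_Ioc_succ

private lemma lint_union (μ : Measure ℝ) (j : ℕ) (f : ℝ → ℝ≥0∞) :
    ∫⁻ u in Ioc 0 (aa j), f u ∂μ = ∑' i, ∫⁻ u in Ioc (aa (j + i + 1)) (aa (j + i)), f u ∂μ := by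
  rw [← union_eq j]
  exact lintegral_iUnion (fun i => measurableSet_Ioc) (disj j) f

private lemma meas_of : Measurable fun u : ℝ => ENNReal.ofReal u := ENNReal.measurable_ofReal

private lemma div_le_div' {s s' A A' : ℝ≥0∞} (hA0 : A ≠ 0) (hAt : A ≠ ∞) (hB0 : A' ≠ 0)
    (hBt : A' ≠ ∞) (h : A' * s ≤ A * s') : s / A ≤ s' / A' := by
  rw [ENNReal.div_le_iff hA0 hAt, ← ENNReal.mul_div_right_comm,
    ENNReal.le_div_iff_mul_le (Or.inl hB0) (Or.inl hBt)]
  rw [mul_comm s A', mul_comm s' A]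
  exact h

private lemma shell_bd (h : AAP) (Λ : Measure ℝ) (i : ℕ) (u : ℝ)
    (hu : u ∈ Ioc (aa (0 + i + 1)) (aa (0 + i))) :
    ENNReal.ofReal (u * -Real.log u) / AA Λ (-Real.log u) ≤
      2 * tau Λ i * ENNReal.ofReal u := by
  rw [zero_add] at hu
  obtain ⟨h1, h2⟩ := hu
  have hu0 : 0 < u := (aa_pos _).trans h1
  have h3 : -(2 : ℝ) ^ (i + 1) < Real.log u := (Real.lt_log_iff_exp_lt hu0).2 h1
  have h4 : Real.log u ≤ -(2 : ℝ) ^ i := (Real.log_le_iff_le_exp hu0).2 h2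
  have h5 : AA Λ ((2 : ℝ) ^ i) ≤ AA Λ (-Real.log u) := h.mono Λ (by linarith)
  have h6 : ENNReal.ofReal (u * -Real.log u) ≤
      ENNReal.ofReal u * (2 * ENNReal.ofReal ((2 : ℝ) ^ i)) := by
    rw [ENNReal.ofReal_mul hu0.le]
    apply mul_le_mul_right
    calc ENNReal.ofReal (-Real.log u) ≤ ENNReal.ofReal (2 * (2 : ℝ) ^ i) :=
          ENNReal.ofReal_le_ofReal (by rw [pow_succ] at h3; linarith)
      _ = 2 * ENNReal.ofReal ((2 : ℝ) ^ i) := by
          rw [ENNReal.ofReal_mul (by norm_num)]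
          norm_num
  calc ENNReal.ofReal (u * -Real.log u) / AA Λ (-Real.log u)
      ≤ (ENNReal.ofReal u * (2 * ENNReal.ofReal ((2 : ℝ) ^ i))) / AA Λ ((2 : ℝ) ^ i) :=
        ENNReal.div_le_div h6 h5
    _ = 2 * tau Λ i * ENNReal.ofReal u := by
        unfold tau
        simp only [div_eq_mul_inv]
        ring

private lemma top_bd (h : AAP) (Λ : Measure ℝ) (u : ℝ) (hu : u ∈ Ioc (aa 0) (1 / 2)) :
    ENNReal.ofReal (u * -Real.log u) / AA Λ (-Real.log u) ≤
      (AA Λ (Real.log 2))⁻¹ * ENNReal.ofReal u := by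
  obtain ⟨h1, h2⟩ := hu
  have hu0 : 0 < u := (aa_pos _).trans h1
  have h3 : -(2 : ℝ) ^ 0 < Real.log u := (Real.lt_log_iff_exp_lt hu0).2 h1
  rw [pow_zero] at h3
  have h4 : Real.log u ≤ -Real.log 2 := by
    rw [← Real.log_inv]
    exact Real.log_le_log hu0 (by rw [inv_eq_one_div]; exact h2)
  have h5 : AA Λ (Real.log 2) ≤ AA Λ (-Real.log u) := h.mono Λ (by linarith)
  have h6 : ENNReal.ofReal (u * -Real.log u) ≤ ENNReal.ofReal u :=
    ENNReal.ofReal_le_ofReal (by nlinarith)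
  calc ENNReal.ofReal (u * -Real.log u) / AA Λ (-Real.log u)
      ≤ ENNReal.ofReal u / AA Λ (Real.log 2) := ENNReal.div_le_div h6 h5
    _ = (AA Λ (Real.log 2))⁻¹ * ENNReal.ofReal u := by rw [div_eq_mul_inv, mul_comm]

private lemma JJ_le (h : AAP) (Λ : Measure ℝ) :
    JJ Λ ≤ 2 * (∑' i, mu Λ i * tau Λ i) + (AA Λ (Real.log 2))⁻¹ * m1 Λ := by
  have hsub : Ioc (0 : ℝ) (1 / 2) ⊆ Ioc 0 (aa 0) ∪ Ioc (aa 0) (1 / 2) := by
    intro x hx
    rcases le_or_gt x (aa 0) with h1 | h1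
    · exact Or.inl ⟨hx.1, h1⟩
    · exact Or.inr ⟨h1, hx.2⟩
  have e1 : JJ Λ ≤ ∫⁻ u in Ioc 0 (aa 0), ENNReal.ofReal (u * -Real.log u) /
        AA Λ (-Real.log u) ∂(nu Λ) + ∫⁻ u in Ioc (aa 0) (1 / 2),
          ENNReal.ofReal (u * -Real.log u) / AA Λ (-Real.log u) ∂(nu Λ) := by
    unfold JJ
    exact (lintegral_mono_set hsub).trans (lintegral_union_le _ _ _)
  refine e1.trans (add_le_add ?_ ?_)
  · rw [lint_union (nu Λ) 0, ← ENNReal.tsum_mul_left]
    apply ENNReal.tsum_le_tsum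
    intro i
    calc ∫⁻ u in Ioc (aa (0 + i + 1)) (aa (0 + i)), ENNReal.ofReal (u * -Real.log u) /
          AA Λ (-Real.log u) ∂(nu Λ)
        ≤ ∫⁻ u in Ioc (aa (0 + i + 1)) (aa (0 + i)), 2 * tau Λ i * ENNReal.ofReal u ∂(nu Λ) :=
          setLIntegral_mono' measurableSet_Ioc (fun u hu => shell_bd h Λ i u hu)
      _ = 2 * tau Λ i * mu Λ i := by
          rw [lintegral_const_mul _ meas_of, zero_add]
          rfl
      _ = 2 * (mu Λ i * tau Λ i) := by ring
  · calc ∫⁻ u in Ioc (aa 0) (1 / 2), ENNReal.ofReal (u * -Real.log u) /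
          AA Λ (-Real.log u) ∂(nu Λ)
        ≤ ∫⁻ u in Ioc (aa 0) (1 / 2), (AA Λ (Real.log 2))⁻¹ * ENNReal.ofReal u ∂(nu Λ) :=
          setLIntegral_mono' measurableSet_Ioc (fun u hu => top_bd h Λ u hu)
      _ ≤ ∫⁻ u, (AA Λ (Real.log 2))⁻¹ * ENNReal.ofReal u ∂(nu Λ) := setLIntegral_le_lintegral _ _
      _ = (AA Λ (Real.log 2))⁻¹ * m1 Λ := by
          rw [lintegral_const_mul _ meas_of]
          rfl

theorem hSH (h : AAP) : SH := by
  refine ⟨?_, ?_, ?_, ?_⟩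
  · intro Λ _ j
    exact (lint_union (nu Λ) j _).symm
  · intro Λ hr hJ
    by_contra hne
    have h1 := JJ_le h Λ
    rw [hJ, top_le_iff] at h1
    have h2 : (AA Λ (Real.log 2))⁻¹ ≠ ∞ :=
      ENNReal.inv_ne_top.2 (h.ne_zero hr _ (Real.log_pos (by norm_num)))
    have h3 : m1 Λ ≠ ∞ := hr.m1_ne_top
    exact ENNReal.add_ne_top.2 ⟨ENNReal.mul_ne_top (by norm_num) hne, ENNReal.mul_ne_top h2 h3⟩ h1
  · intro Λ hr i j hij
    have hp : (0 : ℝ) < 2 ^ i := by positivity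
    have hq : (0 : ℝ) < 2 ^ j := by positivity
    unfold tau
    exact div_le_div' (h.ne_zero hr _ hp) (h.ne_top hr _) (h.ne_zero hr _ hq) (h.ne_top hr _)
      (h.scale Λ _ _ hp (pow_le_pow_right₀ (by norm_num) hij))
  · intro Λ hr i
    unfold tau
    have hp : (0 : ℝ) < 2 ^ i := by positivity
    exact ENNReal.div_ne_top ENNReal.ofReal_ne_top (h.ne_zero hr _ hp)

end Pool.Agent.Helper69.EV
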